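import Pool.Agent.V5helper21.Mor.Fin4

/-!
# A criterion for the quasiconvexity of `W(F) = f(F₀₀, F₁₁) + q(F₀₁, F₁₀) + c det F`

`f` is a separately convex function of the diagonal with `k₁ ≤ f₁₂ ≤ k₂` such that `f₁₂` is, for
each `y`, a monotone function of `x` (increasing or decreasing, depending on `y`), or, for each `x`,
a monotone function of `y`; and `q(s, t) + k₁ s t`, `q(s, t) + k₂ s t` are convex.  Then `W` is
quasiconvex.  The class contains `(F₀₀)₊ (F₁₁)₊ + (F₀₁² + F₁₀²) / 2`, which is not polyconvex.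

Proof: at each point `f` is touched from below by a function `g` of the same kind for which `g₁₂` is
increasing in `x` at all levels below the point (or decreasing at all levels above it).  On a torus
grid, with the second component `v` given, one has
`∑ g(x₀ + ∂₁ u, y₀ + ∂₂ v) ≥ ∑ (g(x₀, y₀) + ∂₂ w ∂₁ u)` with a function `w` which is found in each
column from the chain of the isotonic regressions of `v` (projections onto `{∂₂ w ≥ - k τ}`).  The
increments of the chains of two columns are ordered in such a way that the convexity of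
`q + k₁ s t`, `q + k₂ s t` can be used step by step along the chain.
-/

set_option autoImplicit false

open Matrix

namespace Pool.Agent.Results.MP_515557_an.MonotoneRowsCriterion

/-- The inequality of quasiconvexity at all matrices, for all bounded open sets `Ω` and all
Lipschitz maps `ϑ` vanishing off `Ω`. -/
def Quasiconvex (W : Matrix (Fin 2) (Fin 2) ℝ → ℝ) : Prop :=
  ∀ F₀ : Matrix (Fin 2) (Fin 2) ℝ, ∀ Ω : Set (Fin 2 → ℝ),
    IsOpen Ω → Bornology.IsBounded Ω →
    ∀ ϑ : (Fin 2 → ℝ) → (Fin 2 → ℝ), (∃ K, LipschitzWith K ϑ) →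
      (∀ x, x ∉ Ω → ϑ x = 0) →
      W F₀ * (MeasureTheory.volume Ω).toReal ≤
        ∫ x in Ω, W (F₀ + LinearMap.toMatrix'
          ((fderiv ℝ ϑ x : (Fin 2 → ℝ) →L[ℝ] (Fin 2 → ℝ)) :
            (Fin 2 → ℝ) →ₗ[ℝ] (Fin 2 → ℝ)))

/-- `W(F) = P(F, det F)` for a convex function `P` with values in `ℝ ∪ {+∞}`. -/
def Polyconvex (W : Matrix (Fin 2) (Fin 2) ℝ → ℝ) : Prop :=
  ∃ P : Matrix (Fin 2) (Fin 2) ℝ × ℝ → EReal, (∀ z, P z ≠ ⊥) ∧
    (∀ z w : Matrix (Fin 2) (Fin 2) ℝ × ℝ, ∀ a b : ℝ, 0 ≤ a → 0 ≤ b → a + b = 1 →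
      P (a • z + b • w) ≤ (a : EReal) * P z + (b : EReal) * P w) ∧
    ∀ F, P (F, F.det) = (W F : EReal)

/-- `W(F) = f(F₀₀, F₁₁) + q(F₀₁, F₁₀) + c det F` -/
def Energy (f q : ℝ → ℝ → ℝ) (c : ℝ) (F : Matrix (Fin 2) (Fin 2) ℝ) : ℝ :=
  f (F 0 0) (F 1 1) + q (F 0 1) (F 1 0) + c * F.det

/-- `f₁₂( · , y)` is monotone (increasing or decreasing) for each `y`: the right derivative of
`f(x, y)` with respect to `y` is a convex or a concave function of `x`. -/
def MonotoneRows (f : ℝ → ℝ → ℝ) : Prop :=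
  ∀ y, ConvexOn ℝ Set.univ (fun x => derivWithin (f x) (Set.Ioi y) y) ∨
    ConcaveOn ℝ Set.univ (fun x => derivWithin (f x) (Set.Ioi y) y)

/-- The class: `f` is separately convex, its mixed second differences lie between `k₁` and `k₂`
times the area (for smooth `f`: `k₁ ≤ f₁₂ ≤ k₂`) and `f₁₂` is monotone on each horizontal line or on
each vertical line. -/
def SplitClass (f : ℝ → ℝ → ℝ) (k₁ k₂ : ℝ) : Prop :=
  (∀ y, ConvexOn ℝ Set.univ fun x => f x y) ∧
  (∀ x, ConvexOn ℝ Set.univ fun y => f x y) ∧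
  (∀ x x' y y', x ≤ x' → y ≤ y' →
    k₁ * ((x' - x) * (y' - y)) ≤ f x' y' - f x' y - f x y' + f x y ∧
    f x' y' - f x' y - f x y' + f x y ≤ k₂ * ((x' - x) * (y' - y))) ∧
  (MonotoneRows f ∨ MonotoneRows fun x y => f y x)

/-- joint convexity -/
def Convex2 (q : ℝ → ℝ → ℝ) : Prop := ConvexOn ℝ Set.univ fun z : ℝ × ℝ => q z.1 z.2

/-- the positive part -/
def pos (x : ℝ) : ℝ := max x 0

theorem pos_nonneg (x : ℝ) : 0 ≤ pos x := le_max_right _ _

theorem pos_conv (x a t : ℝ) (h0 : 0 ≤ t) (h1 : t ≤ 1) :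
    pos (x + t * a) ≤ (1 - t) * pos x + t * pos (x + a) := by
  have a1 : x ≤ pos x := le_max_left _ _
  have a2 : x + a ≤ pos (x + a) := le_max_left _ _
  have a3 := pos_nonneg x
  have a4 := pos_nonneg (x + a)
  refine max_le ?_ ?_
  · nlinarith
  · have : 0 ≤ 1 - t := by linarith
    positivity

theorem pos_diff (x a : ℝ) : |pos (x + a) - pos x| ≤ |a| := by
  have h := abs_max_sub_max_le_abs (x + a) x 0
  rwa [add_sub_cancel_left] at h

/-- the function `x₊ y₊` -/
def exf (x y : ℝ) : ℝ := pos x * pos y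

/-- the function `(s² + t²) / 2` -/
noncomputable def exq (s t : ℝ) : ℝ := 1 / 2 * (s ^ 2 + t ^ 2)

theorem pos_convexOn : ConvexOn ℝ Set.univ pos :=
  (convexOn_id convex_univ).sup (convexOn_const 0 convex_univ)

theorem ex_rows : MonotoneRows exf := by
  intro y
  left
  have h1 : ∀ x, derivWithin (exf x) (Set.Ioi y) y = pos x * derivWithin pos (Set.Ioi y) y :=
    fun x => derivWithin_const_mul_field (pos x)
  have h2 : 0 ≤ derivWithin pos (Set.Ioi y) y := by
    have := V5helper21.Mor.rd_le pos_convexOn y (y - 1)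
    have h3 : pos (y - 1) ≤ pos y := max_le_max_right 0 (by linarith)
    linarith
  refine (pos_convexOn.smul h2).congr fun x _ => ?_
  rw [h1]
  simp only [smul_eq_mul]
  ring

theorem ex_class : SplitClass exf 0 1 := by
  refine ⟨fun y => ?_, fun x => ?_, fun x x' y y' h1 h2 => ?_, Or.inl ex_rows⟩
  · refine (pos_convexOn.smul (pos_nonneg y)).congr fun x _ => ?_
    simp only [smul_eq_mul, exf]
    ring
  · exact pos_convexOn.smul (pos_nonneg x)
  · have e : exf x' y' - exf x' y - exf x y' + exf x y = (pos x' - pos x) * (pos y' - pos y) := by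
      unfold exf
      ring
    have a1 : 0 ≤ pos x' - pos x := sub_nonneg.2 (max_le_max_right 0 h1)
    have a2 : 0 ≤ pos y' - pos y := sub_nonneg.2 (max_le_max_right 0 h2)
    have b1 : pos x' - pos x ≤ x' - x := by
      have := pos_diff x (x' - x)
      rw [show x + (x' - x) = x' by ring, abs_of_nonneg a1,
        abs_of_nonneg (sub_nonneg.2 h1)] at this
      exact this
    have b2 : pos y' - pos y ≤ y' - y := by
      have := pos_diff y (y' - y)
      rw [show y + (y' - y) = y' by ring, abs_of_nonneg a2,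
        abs_of_nonneg (sub_nonneg.2 h2)] at this
      exact this
    rw [e]
    refine ⟨by rw [zero_mul]; exact mul_nonneg a1 a2, ?_⟩
    rw [one_mul]
    exact mul_le_mul b1 b2 a2 (by linarith)

theorem ex_conv (k : ℝ) (h0 : 0 ≤ k) (h1 : k ≤ 1) : Convex2 fun s t => exq s t + k * (s * t) := by
  refine ⟨convex_univ, fun z _ w _ a b ha hb hab => ?_⟩
  simp only [Prod.fst_add, Prod.snd_add, Prod.smul_fst, Prod.smul_snd, smul_eq_mul, exq]
  have ha' : a = 1 - b := by linarith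
  subst ha'
  have h3 : 0 ≤ (1 - b) * b * (1 / 2 * ((1 - k) * ((z.1 - w.1) ^ 2 + (z.2 - w.2) ^ 2)
      + k * ((z.1 - w.1) + (z.2 - w.2)) ^ 2)) := by
    have : 0 ≤ 1 - k := by linarith
    positivity
  nlinarith

theorem ex_not_poly : ¬ Polyconvex (Energy exf exq 0) := by
  rintro ⟨P, -, hconv, hP⟩
  have hv : ∀ a b : ℝ, P (!![a, 0; 0, b], a * b) = ((pos a * pos b : ℝ) : EReal) := by
    intro a b
    have h := hP !![a, 0; 0, b]
    rw [Matrix.det_fin_two] at h
    simp only [Energy, exf, exq] at h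
    simp only [Matrix.of_apply, Matrix.cons_val', Matrix.cons_val_zero, Matrix.cons_val_one,
      Matrix.cons_val_fin_one, mul_zero, sub_zero] at h
    rw [h]
    congr 1
    ring
  have h1 := hconv (!![4, 0; 0, 0], 4 * 0) (!![0, 0; 0, 4], 0 * 4) (1 / 2) (1 / 2)
    (by norm_num) (by norm_num) (by norm_num)
  have e1 : (1 / 2 : ℝ) • ((!![4, 0; 0, 0] : Matrix (Fin 2) (Fin 2) ℝ), (4 * 0 : ℝ))
      + (1 / 2 : ℝ) • ((!![0, 0; 0, 4] : Matrix (Fin 2) (Fin 2) ℝ), (0 * 4 : ℝ))
      = (!![2, 0; 0, 2], 0) := by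
    ext i j
    · fin_cases i <;> fin_cases j <;> simp <;> norm_num
    · simp
  rw [e1, hv, hv] at h1
  have h1' : P (!![2, 0; 0, 2], 0) ≤ 0 := by
    refine h1.trans (le_of_eq ?_)
    rw [← EReal.coe_mul, ← EReal.coe_mul, ← EReal.coe_add, ← EReal.coe_zero]
    congr 1
    norm_num [pos]
  have h2 := hconv (!![-2, 0; 0, -2], (-2) * (-2)) (!![2, 0; 0, 2], 0) (1 / 4) (3 / 4)
    (by norm_num) (by norm_num) (by norm_num)
  have e2 : (1 / 4 : ℝ) • ((!![-2, 0; 0, -2] : Matrix (Fin 2) (Fin 2) ℝ), ((-2) * (-2) : ℝ))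
      + (3 / 4 : ℝ) • ((!![2, 0; 0, 2] : Matrix (Fin 2) (Fin 2) ℝ), (0 : ℝ))
      = (!![1, 0; 0, 1], 1 * 1) := by
    ext i j
    · fin_cases i <;> fin_cases j <;> simp <;> norm_num
    · simp
      norm_num
  rw [e2, hv, hv] at h2
  have h3 : ((3 / 4 : ℝ) : EReal) * P (!![2, 0; 0, 2], 0) ≤ 0 := by
    have h34 : (0 : EReal) ≤ ((3 / 4 : ℝ) : EReal) := by exact_mod_cast (by norm_num : (0:ℝ) ≤ 3 / 4)
    have := mul_le_mul_of_nonneg_left h1' h34
    rwa [mul_zero] at this
  have h4 : ((1 / 4 : ℝ) : EReal) * ((pos (-2) * pos (-2) : ℝ) : EReal) = 0 := by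
    rw [← EReal.coe_mul, ← EReal.coe_zero]
    congr 1
    norm_num [pos]
  rw [h4, zero_add] at h2
  have h5 := h2.trans h3
  have h6 : (pos 1 * pos 1 : ℝ) ≤ 0 := by
    exact_mod_cast h5
  norm_num [pos] at h6

theorem cv_of {q : ℝ → ℝ → ℝ} (h : Convex2 q) : V5helper21.Mor.CV q := by
  intro s t s' t' l hl0 hl1
  have := h.2 (Set.mem_univ (s, t)) (Set.mem_univ (s', t')) (show 0 ≤ 1 - l by linarith) hl0
    (by ring)
  simpa only [Prod.fst_add, Prod.snd_add, Prod.smul_fst, Prod.smul_snd, smul_eq_mul,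
    Prod.smul_mk, Prod.mk_add_mk] using this

/-- Let `f` be separately convex with `k₁ ≤ f₁₂ ≤ k₂` and `f₁₂` monotone on each horizontal line
or on each vertical line, and let `q(s, t) + k₁ s t` and `q(s, t) + k₂ s t` be convex.  Then
`W(F) = f(F₀₀, F₁₁) + q(F₀₁, F₁₀) + c det F` is quasiconvex.  Some functions `W` of this kind are
not polyconvex. -/
theorem result :
    (∀ (f q : ℝ → ℝ → ℝ) (k₁ k₂ c : ℝ), SplitClass f k₁ k₂ →
      Convex2 (fun s t => q s t + k₁ * (s * t)) → Convex2 (fun s t => q s t + k₂ * (s * t)) →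
      Quasiconvex (Energy f q c)) ∧
    ∃ (f q : ℝ → ℝ → ℝ) (k₁ k₂ : ℝ), SplitClass f k₁ k₂ ∧
      Convex2 (fun s t => q s t + k₁ * (s * t)) ∧ Convex2 (fun s t => q s t + k₂ * (s * t)) ∧
      ¬ Polyconvex (Energy f q 0) :=
  ⟨fun _ _ _ _ c h h1 h2 => V5helper21.Mor.main5 c h.1 h.2.1 h.2.2.1 h.2.2.2 (cv_of h1) (cv_of h2),
    exf, exq, 0, 1, ex_class, ex_conv 0 le_rfl zero_le_one, ex_conv 1 zero_le_one le_rfl,
    ex_not_poly⟩

end Pool.Agent.Results.MP_515557_an.MonotoneRowsCriterion
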