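import Pool.Agent.V5helper21.Mor.Fin4

/-!
# Morrey's problem for `W(F) = f(F₀₀, F₁₁) + q(F₀₁, F₁₀) + c det F`

`q` is an arbitrary function, `c` an arbitrary number, and `f` is a function with linear growth in
`x` whose mixed derivative `f₁₂` is, for each `y`, a monotone function of `x` (increasing or
decreasing, depending on `y`); or the same with `x` and `y` exchanged.  Every rank-one convex
function of this form is quasiconvex, and some of them, for instance
`(F₀₀)₊ (F₁₁)₊ + (F₀₁² + F₁₀²) / 2`, are not polyconvex.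

Proof: (1) By linear growth the second derivative `f₁₁` vanishes at infinity in a mean sense, and
the rank-one convexity of `W` for large `x` shows that `q(s, t) + κ s t` is convex for all the
values `κ` of `f₁₂` at `x = ± ∞`, hence for all values of `f₁₂`.  (2) At each point the function
`f` is touched from below by a function `g` of the same kind for which `g₁₂` is increasing in `x` at
all levels below the point (or decreasing at all levels above it).  (3) On a torus grid, with the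
second component `v` given, one has `∑ g(x₀ + ∂₁ u, y₀ + ∂₂ v) ≥ ∑ (g(x₀, y₀) + ∂₂ w ∂₁ u)` with a
function `w` which is found in each column from the chain of the isotonic regressions of `v`
(projections onto `{∂₂ w ≥ - k τ}`); the increments of the chains of two columns are ordered in such
a way that the convexity of `q + κ s t` can be used step by step along the chain.
-/

set_option autoImplicit false

open Matrix

namespace Pool.Agent.Results.MP_515557_an.MonotoneRowsRankOneConvex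

/-- Convexity on the segments in rank-one directions. -/
def RankOneConvex (W : Matrix (Fin 2) (Fin 2) ℝ → ℝ) : Prop :=
  ∀ F H : Matrix (Fin 2) (Fin 2) ℝ, H.rank = 1 → ∀ t : ℝ, 0 ≤ t → t ≤ 1 →
    W ((1 - t) • F + t • (F + H)) ≤ (1 - t) * W F + t * W (F + H)

/-- The inequality of quasiconvexity at all matrices, for all bounded open sets `Ω` and all
Lipschitz maps `ϑ` vanishing off `Ω`. -/
def Quasiconvex (W : Matrix (Fin 2) (Fin 2) ℝ → ℝ) : Prop :=
  ∀ F₀ : Matrix (Fin 2) (Fin 2) ℝ, ∀ Ω : Set (Fin 2 → ℝ),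
    IsOpen Ω → Bornology.IsBounded Ω →
    ∀ ϑ : (Fin 2 → ℝ) → (Fin 2 → ℝ), (∃ K, LipschitzWith K ϑ) →
      (∀ x, x ∉ Ω → ϑ x = 0) →
      W F₀ * (MeasureTheory.volume Ω).toReal ≤
        ∫ x in Ω, W (F₀ + LinearMap.toMatrix'
          ((fderiv ℝ ϑ x : (Fin 2 → ℝ) →L[ℝ] (Fin 2 → ℝ)) :
            (Fin 2 → ℝ) →ₗ[ℝ] (Fin 2 → ℝ)))

/-- `W(F) = P(F, det F)` for a convex function `P` with values in `ℝ ∪ {+∞}`. -/
def Polyconvex (W : Matrix (Fin 2) (Fin 2) ℝ → ℝ) : Prop :=
  ∃ P : Matrix (Fin 2) (Fin 2) ℝ × ℝ → EReal, (∀ z, P z ≠ ⊥) ∧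
    (∀ z w : Matrix (Fin 2) (Fin 2) ℝ × ℝ, ∀ a b : ℝ, 0 ≤ a → 0 ≤ b → a + b = 1 →
      P (a • z + b • w) ≤ (a : EReal) * P z + (b : EReal) * P w) ∧
    ∀ F, P (F, F.det) = (W F : EReal)

/-- `W(F) = f(F₀₀, F₁₁) + q(F₀₁, F₁₀) + c det F` -/
def Energy (f q : ℝ → ℝ → ℝ) (c : ℝ) (F : Matrix (Fin 2) (Fin 2) ℝ) : ℝ :=
  f (F 0 0) (F 1 1) + q (F 0 1) (F 1 0) + c * F.det

/-- `f₁₂( · , y)` is monotone (increasing or decreasing) for each `y`: the right derivative of
`f(x, y)` with respect to `y` is a convex or a concave function of `x`. -/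
def MonotoneRows (f : ℝ → ℝ → ℝ) : Prop :=
  ∀ y, ConvexOn ℝ Set.univ (fun x => derivWithin (f x) (Set.Ioi y) y) ∨
    ConcaveOn ℝ Set.univ (fun x => derivWithin (f x) (Set.Ioi y) y)

/-- linear growth in the first variable -/
def LinearGrowth (f : ℝ → ℝ → ℝ) : Prop := ∀ y, ∃ C, ∀ x, |f x y| ≤ C * (1 + |x|)

/-- the positive part -/
def pos (x : ℝ) : ℝ := max x 0

theorem pos_nonneg (x : ℝ) : 0 ≤ pos x := le_max_right _ _

theorem pos_conv (x a t : ℝ) (h0 : 0 ≤ t) (h1 : t ≤ 1) :
    pos (x + t * a) ≤ (1 - t) * pos x + t * pos (x + a) := by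
  have a1 : x ≤ pos x := le_max_left _ _
  have a2 : x + a ≤ pos (x + a) := le_max_left _ _
  have a3 := pos_nonneg x
  have a4 := pos_nonneg (x + a)
  refine max_le ?_ ?_
  · nlinarith
  · have : 0 ≤ 1 - t := by linarith
    positivity

theorem pos_diff (x a : ℝ) : |pos (x + a) - pos x| ≤ |a| := by
  have h := abs_max_sub_max_le_abs (x + a) x 0
  rwa [add_sub_cancel_left] at h

/-- the function `x₊ y₊` -/
def exf (x y : ℝ) : ℝ := pos x * pos y

/-- the function `(s² + t²) / 2` -/
noncomputable def exq (s t : ℝ) : ℝ := 1 / 2 * (s ^ 2 + t ^ 2)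

theorem pos_convexOn : ConvexOn ℝ Set.univ pos :=
  (convexOn_id convex_univ).sup (convexOn_const 0 convex_univ)

theorem ex_rows : MonotoneRows exf := by
  intro y
  left
  have h1 : ∀ x, derivWithin (exf x) (Set.Ioi y) y = pos x * derivWithin pos (Set.Ioi y) y :=
    fun x => derivWithin_const_mul_field (pos x)
  have h2 : 0 ≤ derivWithin pos (Set.Ioi y) y := by
    have := V5helper21.Mor.rd_le pos_convexOn y (y - 1)
    have h3 : pos (y - 1) ≤ pos y := max_le_max_right 0 (by linarith)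
    linarith
  refine (pos_convexOn.smul h2).congr fun x _ => ?_
  rw [h1]
  simp only [smul_eq_mul]
  ring

theorem ex_growth : LinearGrowth exf := by
  intro y
  refine ⟨|y|, fun x => ?_⟩
  have h1 : |pos x| ≤ |x| := by
    rw [abs_of_nonneg (pos_nonneg x)]
    exact max_le (le_abs_self x) (abs_nonneg x)
  have h2 : |pos y| ≤ |y| := by
    rw [abs_of_nonneg (pos_nonneg y)]
    exact max_le (le_abs_self y) (abs_nonneg y)
  have h3 : |exf x y| = |pos x| * |pos y| := abs_mul _ _
  rw [h3]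
  have := mul_le_mul h1 h2 (abs_nonneg _) (abs_nonneg _)
  nlinarith [abs_nonneg x, abs_nonneg y]

theorem ex_rankone : RankOneConvex (Energy exf exq 0) := by
  intro F H hH t ht0 ht1
  have hd : H.det = 0 := Pool.Agent.Helper188.Morrey.det_eq_zero_of_rank hH.le
  rw [Matrix.det_fin_two] at hd
  have e : (1 - t) • F + t • (F + H) = F + t • H := by
    ext i j
    simp only [Matrix.add_apply, Matrix.smul_apply, smul_eq_mul]
    ring
  rw [e]
  simp only [Energy, exf, exq, Matrix.add_apply, Matrix.smul_apply, smul_eq_mul, zero_mul, add_zero]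
  set x := F 0 0
  set y := F 1 1
  set a := H 0 0
  set b := H 1 1
  have p1 := pos_conv x a t ht0 ht1
  have p2 := pos_conv y b t ht0 ht1
  have q1 := pos_diff x a
  have q2 := pos_diff y b
  have h1 : pos (x + t * a) * pos (y + t * b)
      ≤ ((1 - t) * pos x + t * pos (x + a)) * ((1 - t) * pos y + t * pos (y + b)) :=
    mul_le_mul p1 p2 (pos_nonneg _) ((pos_nonneg _).trans p1)
  have h2 : ((1 - t) * pos x + t * pos (x + a)) * ((1 - t) * pos y + t * pos (y + b))
      = (1 - t) * (pos x * pos y) + t * (pos (x + a) * pos (y + b))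
        - t * (1 - t) * ((pos (x + a) - pos x) * (pos (y + b) - pos y)) := by ring
  have h3 : -((pos (x + a) - pos x) * (pos (y + b) - pos y)) ≤ |a * b| := by
    rw [abs_mul]
    have := mul_le_mul q1 q2 (abs_nonneg _) (abs_nonneg _)
    rw [← abs_mul] at this
    exact (neg_le_abs _).trans this
  have h4 : |a * b| ≤ (H 0 1 ^ 2 + H 1 0 ^ 2) / 2 := by
    have : a * b = H 0 1 * H 1 0 := by linarith
    rw [this, abs_mul]
    nlinarith [sq_nonneg (|H 0 1| - |H 1 0|), sq_abs (H 0 1), sq_abs (H 1 0)]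
  have h5 : 0 ≤ t * (1 - t) := mul_nonneg ht0 (by linarith)
  have h6 := mul_le_mul_of_nonneg_left (h3.trans h4) h5
  nlinarith

theorem ex_not_poly : ¬ Polyconvex (Energy exf exq 0) := by
  rintro ⟨P, -, hconv, hP⟩
  have hv : ∀ a b : ℝ, P (!![a, 0; 0, b], a * b) = ((pos a * pos b : ℝ) : EReal) := by
    intro a b
    have h := hP !![a, 0; 0, b]
    rw [Matrix.det_fin_two] at h
    simp only [Energy, exf, exq] at h
    simp only [Matrix.of_apply, Matrix.cons_val', Matrix.cons_val_zero, Matrix.cons_val_one,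
      Matrix.cons_val_fin_one, mul_zero, sub_zero] at h
    rw [h]
    congr 1
    ring
  have h1 := hconv (!![4, 0; 0, 0], 4 * 0) (!![0, 0; 0, 4], 0 * 4) (1 / 2) (1 / 2)
    (by norm_num) (by norm_num) (by norm_num)
  have e1 : (1 / 2 : ℝ) • ((!![4, 0; 0, 0] : Matrix (Fin 2) (Fin 2) ℝ), (4 * 0 : ℝ))
      + (1 / 2 : ℝ) • ((!![0, 0; 0, 4] : Matrix (Fin 2) (Fin 2) ℝ), (0 * 4 : ℝ))
      = (!![2, 0; 0, 2], 0) := by
    ext i j
    · fin_cases i <;> fin_cases j <;> simp <;> norm_num
    · simp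
  rw [e1, hv, hv] at h1
  have h1' : P (!![2, 0; 0, 2], 0) ≤ 0 := by
    refine h1.trans (le_of_eq ?_)
    rw [← EReal.coe_mul, ← EReal.coe_mul, ← EReal.coe_add, ← EReal.coe_zero]
    congr 1
    norm_num [pos]
  have h2 := hconv (!![-2, 0; 0, -2], (-2) * (-2)) (!![2, 0; 0, 2], 0) (1 / 4) (3 / 4)
    (by norm_num) (by norm_num) (by norm_num)
  have e2 : (1 / 4 : ℝ) • ((!![-2, 0; 0, -2] : Matrix (Fin 2) (Fin 2) ℝ), ((-2) * (-2) : ℝ))
      + (3 / 4 : ℝ) • ((!![2, 0; 0, 2] : Matrix (Fin 2) (Fin 2) ℝ), (0 : ℝ))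
      = (!![1, 0; 0, 1], 1 * 1) := by
    ext i j
    · fin_cases i <;> fin_cases j <;> simp <;> norm_num
    · simp
      norm_num
  rw [e2, hv, hv] at h2
  have h3 : ((3 / 4 : ℝ) : EReal) * P (!![2, 0; 0, 2], 0) ≤ 0 := by
    have h34 : (0 : EReal) ≤ ((3 / 4 : ℝ) : EReal) := by exact_mod_cast (by norm_num : (0:ℝ) ≤ 3 / 4)
    have := mul_le_mul_of_nonneg_left h1' h34
    rwa [mul_zero] at this
  have h4 : ((1 / 4 : ℝ) : EReal) * ((pos (-2) * pos (-2) : ℝ) : EReal) = 0 := by
    rw [← EReal.coe_mul, ← EReal.coe_zero]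
    congr 1
    norm_num [pos]
  rw [h4, zero_add] at h2
  have h5 := h2.trans h3
  have h6 : (pos 1 * pos 1 : ℝ) ≤ 0 := by
    exact_mod_cast h5
  norm_num [pos] at h6

/-- Let `W(F) = f(F₀₀, F₁₁) + q(F₀₁, F₁₀) + c det F`, where `q` is arbitrary and `f` has linear
growth in `x` and `f₁₂( · , y)` is monotone for each `y` (or the same with `x`, `y` exchanged).  If
`W` is rank-one convex then `W` is quasiconvex.  For some `f`, `q` (and `c = 0`) the function `W` is
rank-one convex but not polyconvex. -/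
theorem result :
    (∀ (f q : ℝ → ℝ → ℝ) (c : ℝ),
      (MonotoneRows f ∧ LinearGrowth f) ∨
        (MonotoneRows (fun x y => f y x) ∧ LinearGrowth (fun x y => f y x)) →
      RankOneConvex (Energy f q c) → Quasiconvex (Energy f q c)) ∧
    ∃ f q : ℝ → ℝ → ℝ, MonotoneRows f ∧ LinearGrowth f ∧
      RankOneConvex (Energy f q 0) ∧ ¬ Polyconvex (Energy f q 0) :=
  ⟨fun _ _ _ hf hr => V5helper21.Mor.main6 hr hf,
    exf, exq, ex_rows, ex_growth, ex_rankone, ex_not_poly⟩

end Pool.Agent.Results.MP_515557_an.MonotoneRowsRankOneConvex
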