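import Pool.Agent.V5helper21.Mor.Prod2

/-!
# Morrey's problem for `W(F) = g(F₀₀) h(F₁₁) + K (F₀₁² + F₁₀²) + c det F`

`g`, `h` are arbitrary real functions and `K`, `c` arbitrary numbers.  Every rank-one convex
function of this form is quasiconvex, and some of them, for instance
`(F₀₀)₊ (F₁₁)₊ + (F₀₁² + F₁₀²) / 2`, are not polyconvex.

Proof: apart from trivial cases `g`, `h` are nonnegative convex functions.  Let `α`, `β` be slopes
of supporting lines of `g`, `h` at `x₀`, `y₀`.  If `|α β| ≤ 2 K` then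
`(g(x₀) + α (x - x₀))₊ (h(y₀) + β (y - y₀))₊` lies below `g(x) h(y)`, and for these functions the
inequality of quasiconvexity is proved by means of isotonic regressions.  If `|α β| > 2 K` then
rank-one convexity for large `x`, `y` shows that both `g` and `h` have superlinear growth and are
log-convex, so that `g(x) h(y)` is a convex function of `(x, y)`.
-/

set_option autoImplicit false

open Matrix

namespace Pool.Agent.Results.MP_515557_an.ProductOfDiagonalEntries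

/-- Convexity on the segments in rank-one directions. -/
def RankOneConvex (W : Matrix (Fin 2) (Fin 2) ℝ → ℝ) : Prop :=
  ∀ F H : Matrix (Fin 2) (Fin 2) ℝ, H.rank = 1 → ∀ t : ℝ, 0 ≤ t → t ≤ 1 →
    W ((1 - t) • F + t • (F + H)) ≤ (1 - t) * W F + t * W (F + H)

/-- The inequality of quasiconvexity at all matrices, for all bounded open sets `Ω` and all
Lipschitz maps `ϑ` vanishing off `Ω`. -/
def Quasiconvex (W : Matrix (Fin 2) (Fin 2) ℝ → ℝ) : Prop :=
  ∀ F₀ : Matrix (Fin 2) (Fin 2) ℝ, ∀ Ω : Set (Fin 2 → ℝ),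
    IsOpen Ω → Bornology.IsBounded Ω →
    ∀ ϑ : (Fin 2 → ℝ) → (Fin 2 → ℝ), (∃ K, LipschitzWith K ϑ) →
      (∀ x, x ∉ Ω → ϑ x = 0) →
      W F₀ * (MeasureTheory.volume Ω).toReal ≤
        ∫ x in Ω, W (F₀ + LinearMap.toMatrix'
          ((fderiv ℝ ϑ x : (Fin 2 → ℝ) →L[ℝ] (Fin 2 → ℝ)) :
            (Fin 2 → ℝ) →ₗ[ℝ] (Fin 2 → ℝ)))

/-- `W(F) = P(F, det F)` for a convex function `P` with values in `ℝ ∪ {+∞}`. -/
def Polyconvex (W : Matrix (Fin 2) (Fin 2) ℝ → ℝ) : Prop :=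
  ∃ P : Matrix (Fin 2) (Fin 2) ℝ × ℝ → EReal, (∀ z, P z ≠ ⊥) ∧
    (∀ z w : Matrix (Fin 2) (Fin 2) ℝ × ℝ, ∀ a b : ℝ, 0 ≤ a → 0 ≤ b → a + b = 1 →
      P (a • z + b • w) ≤ (a : EReal) * P z + (b : EReal) * P w) ∧
    ∀ F, P (F, F.det) = (W F : EReal)

/-- `W(F) = g(F₀₀) h(F₁₁) + K (F₀₁² + F₁₀²) + c det F` -/
def Energy (g h : ℝ → ℝ) (K c : ℝ) (F : Matrix (Fin 2) (Fin 2) ℝ) : ℝ :=
  g (F 0 0) * h (F 1 1) + K * (F 0 1 ^ 2 + F 1 0 ^ 2) + c * F.det

/-- the positive part -/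
def pos (x : ℝ) : ℝ := max x 0

theorem pos_nonneg (x : ℝ) : 0 ≤ pos x := le_max_right _ _

theorem pos_conv (x a t : ℝ) (h0 : 0 ≤ t) (h1 : t ≤ 1) :
    pos (x + t * a) ≤ (1 - t) * pos x + t * pos (x + a) := by
  have a1 : x ≤ pos x := le_max_left _ _
  have a2 : x + a ≤ pos (x + a) := le_max_left _ _
  have a3 := pos_nonneg x
  have a4 := pos_nonneg (x + a)
  refine max_le ?_ ?_
  · nlinarith
  · have : 0 ≤ 1 - t := by linarith
    positivity

theorem pos_diff (x a : ℝ) : |pos (x + a) - pos x| ≤ |a| := by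
  have h := abs_max_sub_max_le_abs (x + a) x 0
  rwa [add_sub_cancel_left] at h

theorem ex_rankone : RankOneConvex (Energy pos pos (1 / 2) 0) := by
  intro F H hH t ht0 ht1
  have hd : H.det = 0 := Pool.Agent.Helper188.Morrey.det_eq_zero_of_rank hH.le
  rw [Matrix.det_fin_two] at hd
  have e : (1 - t) • F + t • (F + H) = F + t • H := by
    ext i j
    simp only [Matrix.add_apply, Matrix.smul_apply, smul_eq_mul]
    ring
  rw [e]
  simp only [Energy, Matrix.add_apply, Matrix.smul_apply, smul_eq_mul, zero_mul, add_zero]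
  set x := F 0 0
  set y := F 1 1
  set a := H 0 0
  set b := H 1 1
  have p1 := pos_conv x a t ht0 ht1
  have p2 := pos_conv y b t ht0 ht1
  have q1 := pos_diff x a
  have q2 := pos_diff y b
  have h1 : pos (x + t * a) * pos (y + t * b)
      ≤ ((1 - t) * pos x + t * pos (x + a)) * ((1 - t) * pos y + t * pos (y + b)) :=
    mul_le_mul p1 p2 (pos_nonneg _) ((pos_nonneg _).trans p1)
  have h2 : ((1 - t) * pos x + t * pos (x + a)) * ((1 - t) * pos y + t * pos (y + b))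
      = (1 - t) * (pos x * pos y) + t * (pos (x + a) * pos (y + b))
        - t * (1 - t) * ((pos (x + a) - pos x) * (pos (y + b) - pos y)) := by ring
  have h3 : -((pos (x + a) - pos x) * (pos (y + b) - pos y)) ≤ |a * b| := by
    rw [abs_mul]
    have := mul_le_mul q1 q2 (abs_nonneg _) (abs_nonneg _)
    rw [← abs_mul] at this
    exact (neg_le_abs _).trans this
  have h4 : |a * b| ≤ (H 0 1 ^ 2 + H 1 0 ^ 2) / 2 := by
    have : a * b = H 0 1 * H 1 0 := by linarith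
    rw [this, abs_mul]
    nlinarith [sq_nonneg (|H 0 1| - |H 1 0|), sq_abs (H 0 1), sq_abs (H 1 0)]
  have h5 : 0 ≤ t * (1 - t) := mul_nonneg ht0 (by linarith)
  have h6 := mul_le_mul_of_nonneg_left (h3.trans h4) h5
  nlinarith

theorem ex_not_poly : ¬ Polyconvex (Energy pos pos (1 / 2) 0) := by
  rintro ⟨P, -, hconv, hP⟩
  have hv : ∀ a b : ℝ, P (!![a, 0; 0, b], a * b) = ((pos a * pos b : ℝ) : EReal) := by
    intro a b
    have h := hP !![a, 0; 0, b]
    rw [Matrix.det_fin_two] at h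
    simp only [Energy] at h
    simp only [Matrix.of_apply, Matrix.cons_val', Matrix.cons_val_zero, Matrix.cons_val_one,
      Matrix.cons_val_fin_one, mul_zero, sub_zero] at h
    rw [h]
    congr 1
    ring
  have h1 := hconv (!![4, 0; 0, 0], 4 * 0) (!![0, 0; 0, 4], 0 * 4) (1 / 2) (1 / 2)
    (by norm_num) (by norm_num) (by norm_num)
  have e1 : (1 / 2 : ℝ) • ((!![4, 0; 0, 0] : Matrix (Fin 2) (Fin 2) ℝ), (4 * 0 : ℝ))
      + (1 / 2 : ℝ) • ((!![0, 0; 0, 4] : Matrix (Fin 2) (Fin 2) ℝ), (0 * 4 : ℝ))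
      = (!![2, 0; 0, 2], 0) := by
    ext i j
    · fin_cases i <;> fin_cases j <;> simp <;> norm_num
    · simp
  rw [e1, hv, hv] at h1
  have h1' : P (!![2, 0; 0, 2], 0) ≤ 0 := by
    refine h1.trans (le_of_eq ?_)
    rw [← EReal.coe_mul, ← EReal.coe_mul, ← EReal.coe_add, ← EReal.coe_zero]
    congr 1
    norm_num [pos]
  have h2 := hconv (!![-2, 0; 0, -2], (-2) * (-2)) (!![2, 0; 0, 2], 0) (1 / 4) (3 / 4)
    (by norm_num) (by norm_num) (by norm_num)
  have e2 : (1 / 4 : ℝ) • ((!![-2, 0; 0, -2] : Matrix (Fin 2) (Fin 2) ℝ), ((-2) * (-2) : ℝ))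
      + (3 / 4 : ℝ) • ((!![2, 0; 0, 2] : Matrix (Fin 2) (Fin 2) ℝ), (0 : ℝ))
      = (!![1, 0; 0, 1], 1 * 1) := by
    ext i j
    · fin_cases i <;> fin_cases j <;> simp <;> norm_num
    · simp
      norm_num
  rw [e2, hv, hv] at h2
  have h3 : ((3 / 4 : ℝ) : EReal) * P (!![2, 0; 0, 2], 0) ≤ 0 := by
    have h34 : (0 : EReal) ≤ ((3 / 4 : ℝ) : EReal) := by exact_mod_cast (by norm_num : (0:ℝ) ≤ 3 / 4)
    have := mul_le_mul_of_nonneg_left h1' h34
    rwa [mul_zero] at this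
  have h4 : ((1 / 4 : ℝ) : EReal) * ((pos (-2) * pos (-2) : ℝ) : EReal) = 0 := by
    rw [← EReal.coe_mul, ← EReal.coe_zero]
    congr 1
    norm_num [pos]
  rw [h4, zero_add] at h2
  have h5 := h2.trans h3
  have h6 : (pos 1 * pos 1 : ℝ) ≤ 0 := by
    exact_mod_cast h5
  norm_num [pos] at h6

/-- Let `g`, `h` be arbitrary functions, `K`, `c` real numbers and
`W(F) = g(F₀₀) h(F₁₁) + K (F₀₁² + F₁₀²) + c det F`.  If `W` is rank-one convex then `W` is
quasiconvex.  For some `g`, `h`, `K` (and `c = 0`) the function `W` is rank-one convex but not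
polyconvex. -/
theorem result :
    (∀ (g h : ℝ → ℝ) (K c : ℝ),
      RankOneConvex (Energy g h K c) → Quasiconvex (Energy g h K c)) ∧
    ∃ (g h : ℝ → ℝ) (K : ℝ),
      RankOneConvex (Energy g h K 0) ∧ ¬ Polyconvex (Energy g h K 0) :=
  ⟨fun g h K c hr => V5helper21.Mor.prod_main g h K c hr,
    pos, pos, 1 / 2, ex_rankone, ex_not_poly⟩

end Pool.Agent.Results.MP_515557_an.ProductOfDiagonalEntries
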