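import Pool.Agent.V5helper40.MQR.Fin

/-!
# Morrey's problem for `W(F) = h(αᵀ F) + k₁(l₁(F)) + k₂(l₂(F)) + Q(F)` on real `2 × 2` matrices

`α` is a vector, `h` an arbitrary function of the vector `αᵀ F` (for instance of the first row of
`F`, the gradient of the first component), `l₁`, `l₂` are linear forms which together with `αᵀ F`
determine `F` (for instance the entries of the second row), `k₁`, `k₂` arbitrary functions of one
variable and `Q` an arbitrary quadratic form.  Every rank-one convex function of this form is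
quasiconvex.  The same holds with the vector `F β` (for instance the first column) in the place of
`αᵀ F`; there the case `k₁ = k₂ = 0` is known (`OneColumnPlusQuadratic`).  Some rank-one convex
functions `h(e₀ᵀ F) + Q(F)` are not polyconvex.

Proof.  (1) The values of `αᵀ F`, `l₁(F)`, `l₂(F)` are independent.  Hence rank-one convexity remains
if `kᵢ` is replaced by the quadratic function `κᵢ s² / 2`, `κᵢ = inf kᵢ''`, and the remainder
`kᵢ(s) - κᵢ s² / 2` is convex.  (2) Let `W(F) = h(p) + Q(F)`, `p` the first row of `F`,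
`u = (f, g)`, and let `A` be the quadratic form `Q` on the second row.  It is nonnegative, and after
a small change of `Q` it is positive.  The integral of `W(F₀ + Du)` over the torus decreases along
the heat flow `∂ₜ u = (A : D²) u` of both components: modulo null forms with constant coefficients
the dissipation is the integral of `T_p(D²f) + 2 (A : D²g + m : D²f)²`, where `m` is the mixed part
of `Q` and `T_p` is a quadratic form on the symmetric matrices which is nonnegative on the singular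
ones: this is the discriminant of the condition of rank-one convexity.  By the S-lemma
`T_p(S) ≥ - φ(p) det S`, and the integral of `φ(p) det D²f`, `p = p₀ + ∇f`, vanishes.
-/

set_option autoImplicit false

open Matrix

namespace Pool.Agent.Results.MP_515557_an.RowOrColumnTwoFormsQuadratic

/-- Convexity on the segments in rank-one directions. -/
def RankOneConvex (W : Matrix (Fin 2) (Fin 2) ℝ → ℝ) : Prop :=
  ∀ F H : Matrix (Fin 2) (Fin 2) ℝ, H.rank = 1 → ∀ t : ℝ, 0 ≤ t → t ≤ 1 →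
    W ((1 - t) • F + t • (F + H)) ≤ (1 - t) * W F + t * W (F + H)

/-- The inequality of quasiconvexity at all matrices, for all bounded open sets `Ω` and all
Lipschitz maps `ϑ` vanishing off `Ω`. -/
def Quasiconvex (W : Matrix (Fin 2) (Fin 2) ℝ → ℝ) : Prop :=
  ∀ F₀ : Matrix (Fin 2) (Fin 2) ℝ, ∀ Ω : Set (Fin 2 → ℝ),
    IsOpen Ω → Bornology.IsBounded Ω →
    ∀ ϑ : (Fin 2 → ℝ) → (Fin 2 → ℝ), (∃ K, LipschitzWith K ϑ) →
      (∀ x, x ∉ Ω → ϑ x = 0) →
      W F₀ * (MeasureTheory.volume Ω).toReal ≤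
        ∫ x in Ω, W (F₀ + LinearMap.toMatrix'
          ((fderiv ℝ ϑ x : (Fin 2 → ℝ) →L[ℝ] (Fin 2 → ℝ)) :
            (Fin 2 → ℝ) →ₗ[ℝ] (Fin 2 → ℝ)))

/-- `W(F) = P(F, det F)` for a convex function `P` with values in `ℝ ∪ {+∞}`. -/
def Polyconvex (W : Matrix (Fin 2) (Fin 2) ℝ → ℝ) : Prop :=
  ∃ P : Matrix (Fin 2) (Fin 2) ℝ × ℝ → EReal, (∀ z, P z ≠ ⊥) ∧
    (∀ z w : Matrix (Fin 2) (Fin 2) ℝ × ℝ, ∀ a b : ℝ, 0 ≤ a → 0 ≤ b → a + b = 1 →
      P (a • z + b • w) ≤ (a : EReal) * P z + (b : EReal) * P w) ∧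
    ∀ F, P (F, F.det) = (W F : EReal)

/-- (Rows) Every rank-one convex function `W(F) = h(αᵀ F) + k₁(l₁(F)) + k₂(l₂(F)) + Q(F)` of a real
`2 × 2` matrix, with arbitrary functions `h : ℝ² → ℝ` and `k₁, k₂ : ℝ → ℝ`, a quadratic form `Q` and
linear forms `l₁`, `l₂` such that `αᵀ F`, `l₁(F)`, `l₂(F)` determine `F`, is quasiconvex.
(Columns) The same holds with `F β` in the place of `αᵀ F`.  (Example) Some rank-one convex
functions `h(e₀ᵀ F) + Q(F)` are not polyconvex. -/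
theorem result :
    (∀ (α : Fin 2 → ℝ) (l₁ l₂ : Matrix (Fin 2) (Fin 2) ℝ →ₗ[ℝ] ℝ)
      (h : (Fin 2 → ℝ) → ℝ) (k₁ k₂ : ℝ → ℝ) (Q : QuadraticForm ℝ (Matrix (Fin 2) (Fin 2) ℝ)),
      (∀ F : Matrix (Fin 2) (Fin 2) ℝ, α ᵥ* F = 0 → l₁ F = 0 → l₂ F = 0 → F = 0) →
      RankOneConvex (fun F => h (α ᵥ* F) + k₁ (l₁ F) + k₂ (l₂ F) + Q F) →
        Quasiconvex (fun F => h (α ᵥ* F) + k₁ (l₁ F) + k₂ (l₂ F) + Q F)) ∧
    (∀ (β : Fin 2 → ℝ) (l₁ l₂ : Matrix (Fin 2) (Fin 2) ℝ →ₗ[ℝ] ℝ)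
      (h : (Fin 2 → ℝ) → ℝ) (k₁ k₂ : ℝ → ℝ) (Q : QuadraticForm ℝ (Matrix (Fin 2) (Fin 2) ℝ)),
      (∀ F : Matrix (Fin 2) (Fin 2) ℝ, F *ᵥ β = 0 → l₁ F = 0 → l₂ F = 0 → F = 0) →
      RankOneConvex (fun F => h (F *ᵥ β) + k₁ (l₁ F) + k₂ (l₂ F) + Q F) →
        Quasiconvex (fun F => h (F *ᵥ β) + k₁ (l₁ F) + k₂ (l₂ F) + Q F)) ∧
    ∃ (h : (Fin 2 → ℝ) → ℝ) (Q : QuadraticForm ℝ (Matrix (Fin 2) (Fin 2) ℝ)),
      RankOneConvex (fun F => h (![1, 0] ᵥ* F) + Q F) ∧
        ¬ Polyconvex (fun F => h (![1, 0] ᵥ* F) + Q F) := by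
  refine ⟨fun α l₁ l₂ h k₁ k₂ Q hl hroc => V5helper40.MQR.fin_row2 α l₁ l₂ h k₁ k₂ Q hl hroc,
    fun β l₁ l₂ h k₁ k₂ Q hl hroc => V5helper40.MQR.fin_col2 β l₁ l₂ h k₁ k₂ Q hl hroc,
    fun v => N555.MQ.kk (v 0) (v 1), V5helper40.MQR.QT, ?_, ?_⟩
  · have e : (fun F : Matrix (Fin 2) (Fin 2) ℝ =>
        (fun v : Fin 2 → ℝ => N555.MQ.kk (v 0) (v 1)) (![1, 0] ᵥ* F) + V5helper40.MQR.QT F)
        = fun F => N555.MQ.WE Fᵀ := funext V5helper40.MQR.WT_eq
    rw [e]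
    intro F H hH t ht0 ht1
    have h1 := N555.MQ.WE_roc Fᵀ Hᵀ
      (by rw [Matrix.det_transpose]
          exact Pool.Agent.Helper188.Morrey.det_eq_zero_of_rank hH.le) t ht0 ht1
    simpa only [Matrix.transpose_add, Matrix.transpose_smul] using h1
  · have e : (fun F : Matrix (Fin 2) (Fin 2) ℝ =>
        (fun v : Fin 2 → ℝ => N555.MQ.kk (v 0) (v 1)) (![1, 0] ᵥ* F) + V5helper40.MQR.QT F)
        = fun F => N555.MQ.WE Fᵀ := funext V5helper40.MQR.WT_eq
    rw [e]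
    exact V5helper40.MQR.WT_not_poly

end Pool.Agent.Results.MP_515557_an.RowOrColumnTwoFormsQuadratic
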